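import Pool.Agent.N206.CG.Af

/-!
Project CG: additive bijections preserving the special letters.
-/

set_option autoImplicit false

namespace Pool.Agent.N415.CG

open Pool.Agent.N206.CG Pool.Agent.N206.CG.Af
open Finset

/-- the vectors `e_j - e_4` -/
def fv : Fin 4 → Fin 5 → ℤ := ![![1, 0, 0, 0, -1], ![0, 1, 0, 0, -1], ![0, 0, 1, 0, -1], ![0, 0, 0, 1, -1]]

theorem fv_sum (j : Fin 4) : ∑ i, fv j i = 0 := by revert j; decide

/-- the vector `e_j - e_4` in the row `k` -/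
def f (R : Type) [CommRing R] (k : Fin 2) (j : Fin 4) : EE R :=
  ⟨fun k' i => if k' = k then ((fv j i : ℤ) : R) else 0, by
    intro k'
    show ∑ i, (if k' = k then ((fv j i : ℤ) : R) else 0) = 0
    by_cases h : k' = k
    · simp only [if_pos h]
      rw [← Int.cast_sum, fv_sum, Int.cast_zero]
    · simp only [if_neg h, sum_const_zero]⟩

theorem f_apply (R : Type) [CommRing R] (k : Fin 2) (j : Fin 4) (k' : Fin 2) (i : Fin 5) :
    (f R k j).1 k' i = if k' = k then ((fv j i : ℤ) : R) else 0 := rfl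

section

variable {p : ℕ}

theorem small (hp : 1000 ≤ p) {a b : ℤ} (h : |a - b| < 1000) (he : ((a : ℤ) : ZMod p) = (b : ZMod p)) : a = b := by
  rw [ZMod.intCast_eq_intCast_iff_dvd_sub] at he
  have h1 : b - a = 0 := by
    refine Int.eq_zero_of_abs_lt_dvd he ?_
    rw [abs_sub_comm]
    have : (1000 : ℤ) ≤ p := by exact_mod_cast hp
    linarith
  linarith

theorem inj (hp : 1000 ≤ p) {a b : Fin 5 → ℤ} {k1 k2 : Fin 2} (h : ∀ i, |a i - b i| < 1000)
    (ha : ∀ i, |a i| < 1000) (h0 : ∃ i, a i ≠ 0)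
    (he : ∀ k' i, (if k' = k1 then ((a i : ℤ) : ZMod p) else 0) = if k' = k2 then ((b i : ℤ) : ZMod p) else 0) :
    k1 = k2 ∧ a = b := by
  obtain ⟨i0, hi0⟩ := h0
  have hk : k1 = k2 := by
    by_contra hk
    have h1 := he k1 i0
    rw [if_pos rfl, if_neg hk] at h1
    apply hi0
    refine small hp ?_ (show ((a i0 : ℤ) : ZMod p) = ((0 : ℤ) : ZMod p) by rw [h1, Int.cast_zero])
    rw [sub_zero]; exact ha i0
  refine ⟨hk, funext fun i => ?_⟩
  have h1 := he k1 i
  rw [if_pos rfl, if_pos hk] at h1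
  exact small hp (h i) h1

theorem TT_bd : ∀ u ∈ TT, (∀ i, |u i| ≤ 16) ∧ ∃ i, u i ≠ 0 := by decide +kernel

theorem TT_sum : ∀ u ∈ TT, ∑ i, u i = 0 := by decide +kernel

theorem TT_a : ∀ j : Fin 4, ∀ u ∈ TT, (∀ v ∈ TT, (fun i => 2 * v i) ≠ u) → (fun i => 2 ^ ((j : ℕ) + 1) * u i) ∈ TT →
    (fun i => 2 ^ ((j : ℕ) + 2) * u i) ∉ TT → u = fv j := by decide +kernel

theorem TT_f : ∀ j : Fin 4, fv j ∈ TT ∧ (∀ v ∈ TT, (fun i => 2 * v i) ≠ fv j) ∧
    (fun i => 2 ^ ((j : ℕ) + 1) * fv j i) ∈ TT ∧ (fun i => 2 ^ ((j : ℕ) + 2) * fv j i) ∉ TT := by decide +kernel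

theorem pow_bd : ∀ j : Fin 4, |(2 : ℤ) ^ ((j : ℕ) + 1)| ≤ 16 ∧ |(2 : ℤ) ^ ((j : ℕ) + 2)| ≤ 32 := by decide

/-- multiples of special letters -/
theorem nsm (hp : 1000 ≤ p) {u : Fin 5 → ℤ} {k : Fin 2} {x : EE (ZMod p)} (hu : u ∈ TT)
    (hx : ∀ k' i, x.1 k' i = if k' = k then ((u i : ℤ) : ZMod p) else 0) (n : ℕ) (hn : 0 < n) (hn' : n ≤ 32) :
    n • x ∈ XX (ZMod p) ↔ (fun i => (n : ℤ) * u i) ∈ TT := by
  have e : ∀ k' i, (n • x).1 k' i = if k' = k then (((n : ℤ) * u i : ℤ) : ZMod p) else 0 := by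
    intro k' i
    have e1 : (n • x).1 k' i = n • (x.1 k' i) := rfl
    rw [e1, hx]
    by_cases h : k' = k
    · rw [if_pos h, if_pos h, nsmul_eq_mul]; push_cast; ring
    · rw [if_neg h, if_neg h, smul_zero]
  have hbu := (TT_bd u hu).1
  have hn2 : (n : ℤ) ≤ 32 := by exact_mod_cast hn'
  have hn1 : (0 : ℤ) < n := by exact_mod_cast hn
  have hb1 : ∀ i, |(n : ℤ) * u i| ≤ 512 := by
    intro i
    rw [abs_mul, abs_of_pos hn1]
    have := hbu i
    have := abs_nonneg (u i)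
    nlinarith
  constructor
  · rintro ⟨k2, v, hv, hv2⟩
    have hbv := (TT_bd v hv).1
    have h1 := inj hp (a := fun i => (n : ℤ) * u i) (b := v) (k1 := k) (k2 := k2)
      (fun i => by
        have h2 := abs_sub (((n : ℤ) * u i)) (v i)
        have h3 := hb1 i
        have h4 := hbv i
        show |(n : ℤ) * u i - v i| < 1000
        omega)
      (fun i => by
        have h3 := hb1 i
        show |(n : ℤ) * u i| < 1000
        omega)
      (by
        obtain ⟨i, hi⟩ := (TT_bd u hu).2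
        exact ⟨i, mul_ne_zero hn1.ne' hi⟩)
      (fun k' i => by rw [← hv2 k' i, e k' i])
    rw [h1.2]; exact hv
  · intro h
    exact ⟨k, _, h, e⟩

/-- doubling -/
theorem dbl (hp : 1000 ≤ p) {u : Fin 5 → ℤ} {k : Fin 2} {x : EE (ZMod p)} (hu : u ∈ TT)
    (hx : ∀ k' i, x.1 k' i = if k' = k then ((u i : ℤ) : ZMod p) else 0) :
    (∀ y ∈ XX (ZMod p), y + y ≠ x) ↔ ∀ v ∈ TT, (fun i => 2 * v i) ≠ u := by
  have hbu := (TT_bd u hu).1
  constructor
  · intro h v hv he
    have hvs : ∀ k' : Fin 2, ∑ i, (if k' = k then ((v i : ℤ) : ZMod p) else 0) = 0 := by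
      intro k'
      by_cases hk : k' = k
      · simp only [if_pos hk]
        have : ∑ i, v i = 0 := TT_sum v hv
        rw [← Int.cast_sum, this, Int.cast_zero]
      · simp only [if_neg hk, sum_const_zero]
    refine h ⟨fun k' i => if k' = k then ((v i : ℤ) : ZMod p) else 0, hvs⟩ ⟨k, v, hv, fun k' i => rfl⟩ ?_
    apply Subtype.ext
    funext k' i
    show (if k' = k then ((v i : ℤ) : ZMod p) else 0) + (if k' = k then ((v i : ℤ) : ZMod p) else 0) = x.1 k' i
    rw [hx, ← he]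
    by_cases hk : k' = k
    · simp only [if_pos hk]; push_cast; ring
    · simp only [if_neg hk, add_zero]
  · rintro h y ⟨k2, v, hv, hv2⟩ he
    have hbv := (TT_bd v hv).1
    have h1 := inj hp (a := fun i => 2 * v i) (b := u) (k1 := k2) (k2 := k)
      (fun i => by
        have h3 := hbv i
        have h4 := hbu i
        show |2 * v i - u i| < 1000
        rw [abs_le] at h3 h4
        rw [abs_lt]
        constructor <;> linarith [h3.1, h3.2, h4.1, h4.2])
      (fun i => by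
        have h3 := hbv i
        show |2 * v i| < 1000
        rw [abs_le] at h3
        rw [abs_lt]
        constructor <;> linarith [h3.1, h3.2])
      (by
        obtain ⟨i, hi⟩ := (TT_bd v hv).2
        exact ⟨i, mul_ne_zero two_ne_zero hi⟩)
      (fun k' i => by
        have e1 : x.1 k' i = y.1 k' i + y.1 k' i := by rw [← he]; rfl
        rw [← hx k' i, e1, hv2]
        by_cases hk : k' = k2
        · simp only [if_pos hk]; push_cast; ring
        · simp only [if_neg hk, add_zero])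
    exact h v hv h1.2

/-- the characteristic property of `f k j` -/
def Q (p : ℕ) (j : Fin 4) (x : EE (ZMod p)) : Prop :=
  x ∈ XX (ZMod p) ∧ (∀ y ∈ XX (ZMod p), y + y ≠ x) ∧ 2 ^ ((j : ℕ) + 1) • x ∈ XX (ZMod p) ∧
    2 ^ ((j : ℕ) + 2) • x ∉ XX (ZMod p)

theorem pow_nat : ∀ j : Fin 4, 2 ^ ((j : ℕ) + 1) ≤ 32 ∧ 2 ^ ((j : ℕ) + 2) ≤ 32 := by decide

theorem Q_f (hp : 1000 ≤ p) (k : Fin 2) (j : Fin 4) : Q p j (f (ZMod p) k j) := by
  obtain ⟨h1, h2, h3, h4⟩ := TT_f j
  have hb := pow_nat j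
  refine ⟨⟨k, fv j, h1, fun k' i => rfl⟩, (dbl hp h1 (fun k' i => rfl)).2 h2, ?_, ?_⟩
  · rw [nsm hp h1 (fun k' i => rfl) _ (by positivity) hb.1]
    push_cast
    exact h3
  · rw [nsm hp h1 (fun k' i => rfl) _ (by positivity) hb.2]
    push_cast
    exact h4

theorem of_Q (hp : 1000 ≤ p) (j : Fin 4) (x : EE (ZMod p)) (h : Q p j x) : ∃ k, x = f (ZMod p) k j := by
  obtain ⟨⟨k, u, hu, hx⟩, h2, h3, h4⟩ := h
  have hb := pow_nat j
  rw [dbl hp hu hx] at h2
  rw [nsm hp hu hx _ (by positivity) hb.1] at h3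
  rw [nsm hp hu hx _ (by positivity) hb.2] at h4
  push_cast at h3 h4
  have := TT_a j u hu h2 h3 h4
  subst this
  exact ⟨k, Subtype.ext (funext fun k' => funext fun i => hx k' i)⟩

theorem decomp [NeZero p] (x : EE (ZMod p)) :
    x = ∑ k : Fin 2, ∑ j : Fin 4, (x.1 k (Fin.castSucc j)).val • f (ZMod p) k j := by
  apply Subtype.ext
  funext k' i
  have h0 := x.2 k'
  rw [Fin.sum_univ_five] at h0
  have e1 : (∑ k : Fin 2, ∑ j : Fin 4, (x.1 k (Fin.castSucc j)).val • f (ZMod p) k j).1 k' i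
      = ∑ k : Fin 2, ∑ j : Fin 4, (x.1 k (Fin.castSucc j)).val • ((f (ZMod p) k j).1 k' i) := by
    simp only [AddSubgroup.val_finsetSum, Finset.sum_apply]
    rfl
  rw [e1]
  have e2 : ∀ k : Fin 2, ∀ j : Fin 4, (x.1 k (Fin.castSucc j)).val • ((f (ZMod p) k j).1 k' i)
      = if k' = k then x.1 k (Fin.castSucc j) * ((fv j i : ℤ) : ZMod p) else 0 := by
    intro k j
    rw [f_apply, nsmul_eq_mul, ZMod.natCast_zmod_val]
    by_cases h : k' = k
    · rw [if_pos h, if_pos h]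
    · rw [if_neg h, if_neg h, mul_zero]
  simp only [e2]
  have e3 : ∑ k : Fin 2, ∑ j : Fin 4, (if k' = k then x.1 k (Fin.castSucc j) * ((fv j i : ℤ) : ZMod p) else 0)
      = ∑ j : Fin 4, x.1 k' (Fin.castSucc j) * ((fv j i : ℤ) : ZMod p) := by
    rw [sum_comm]
    refine sum_congr rfl fun j _ => ?_
    rw [sum_ite_eq univ k' (fun k => x.1 k (Fin.castSucc j) * ((fv j i : ℤ) : ZMod p)), if_pos (mem_univ _)]
  rw [e3, Fin.sum_univ_four]
  fin_cases i
  · simp [fv]
  · simp [fv]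
  · simp [fv]
  · simp [fv]
  · simp [fv]
    have h5 : x.1 k' 4 = -(x.1 k' 0 + x.1 k' 1 + x.1 k' 2 + x.1 k' 3) := by
      linear_combination h0
    linear_combination h5

/-- exchange of the two vectors is additive -/
theorem sw_add (x y : EE (ZMod p)) : sw (ZMod p) (x + y) = sw (ZMod p) x + sw (ZMod p) y := rfl

theorem sw_f (k : Fin 2) (j : Fin 4) : sw (ZMod p) (f (ZMod p) k j) = f (ZMod p) (Equiv.swap 0 1 k) j := by
  apply Subtype.ext
  funext k' i
  show (if Equiv.swap 0 1 k' = k then ((fv j i : ℤ) : ZMod p) else 0)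
    = if k' = Equiv.swap 0 1 k then ((fv j i : ℤ) : ZMod p) else 0
  have : (Equiv.swap 0 1 k' = k) ↔ (k' = Equiv.swap 0 1 k) := by
    constructor
    · intro h; rw [← h, Equiv.swap_apply_self]
    · intro h; rw [h, Equiv.swap_apply_self]
  simp only [this]

theorem ext_f [NeZero p] (s t : Equiv.Perm (EE (ZMod p))) (hs : ∀ x y, s (x + y) = s x + s y)
    (ht : ∀ x y, t (x + y) = t x + t y) (h : ∀ k j, s (f (ZMod p) k j) = t (f (ZMod p) k j)) : s = t := by
  let S : EE (ZMod p) →+ EE (ZMod p) := AddMonoidHom.mk' s hs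
  let T : EE (ZMod p) →+ EE (ZMod p) := AddMonoidHom.mk' t ht
  have hST : ∀ k j, S (f (ZMod p) k j) = T (f (ZMod p) k j) := h
  apply Equiv.ext
  intro x
  show S x = T x
  rw [decomp x, map_sum, map_sum]
  refine sum_congr rfl fun k _ => ?_
  rw [map_sum, map_sum]
  refine sum_congr rfl fun j _ => ?_
  rw [map_nsmul, map_nsmul, hST]

theorem t_F2b : S_F2b := by
  intro p hpp hp s hs hX
  have : Fact p.Prime := ⟨hpp⟩
  have : NeZero p := ⟨hpp.ne_zero⟩
  have h10 : (1 : ZMod p) ≠ 0 := one_ne_zero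
  let S : EE (ZMod p) →+ EE (ZMod p) := AddMonoidHom.mk' s hs
  have hSs : ∀ x, S x = s x := fun x => rfl
  have hQ : ∀ j x, Q p j x → Q p j (s x) := by
    rintro j x ⟨h1, h2, h3, h4⟩
    refine ⟨(hX x).1 h1, ?_, ?_, ?_⟩
    · intro y hy he
      obtain ⟨z, rfl⟩ := s.surjective y
      rw [← hs] at he
      exact h2 z ((hX z).2 hy) (s.injective he)
    · rw [← hSs, ← map_nsmul, hSs, ← hX]; exact h3
    · rw [← hSs, ← map_nsmul, hSs, ← hX]; exact h4
  have hκ : ∀ k j, ∃ k', s (f (ZMod p) k j) = f (ZMod p) k' j := fun k j => of_Q hp j _ (hQ j _ (Q_f hp k j))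
  choose κ hκ using hκ
  -- the row does not depend on `j`
  have hrow : ∀ k, ∃ k', ∀ j, κ k j = k' := by
    intro k
    have hg : (f (ZMod p) k 0 + f (ZMod p) k 1 + f (ZMod p) k 2 + f (ZMod p) k 3) ∈ XX (ZMod p) := by
      refine ⟨k, ![1, 1, 1, 1, -4], by decide +kernel, fun k' i => ?_⟩
      show (f (ZMod p) k 0).1 k' i + (f (ZMod p) k 1).1 k' i + (f (ZMod p) k 2).1 k' i + (f (ZMod p) k 3).1 k' i = _
      simp only [f_apply]
      by_cases h : k' = k
      · simp only [if_pos h]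
        rw [← Int.cast_add, ← Int.cast_add, ← Int.cast_add]
        congr 1
        revert i; decide
      · simp only [if_neg h, add_zero]
    have hg2 := (hX _).1 hg
    rw [hs, hs, hs, hκ, hκ, hκ, hκ] at hg2
    obtain ⟨k', v, _, hv⟩ := hg2
    refine ⟨k', fun j => ?_⟩
    by_contra hne
    have h1 := hv (κ k j) (Fin.castSucc j)
    rw [if_neg hne] at h1
    have h2 : (f (ZMod p) (κ k 0) 0).1 (κ k j) (Fin.castSucc j) + (f (ZMod p) (κ k 1) 1).1 (κ k j) (Fin.castSucc j) +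
        (f (ZMod p) (κ k 2) 2).1 (κ k j) (Fin.castSucc j) + (f (ZMod p) (κ k 3) 3).1 (κ k j) (Fin.castSucc j) = 0 := h1
    simp only [f_apply] at h2
    fin_cases j <;> simp [fv] at h2
  choose κ' hκ' using hrow
  have hs2 : ∀ k j, s (f (ZMod p) k j) = f (ZMod p) (κ' k) j := by
    intro k j; rw [hκ, hκ']
  have hne : κ' 0 ≠ κ' 1 := by
    intro h
    have h1 : s (f (ZMod p) 0 0) = s (f (ZMod p) 1 0) := by rw [hs2, hs2, h]
    have h2 := s.injective h1
    have h3 : (f (ZMod p) 0 0).1 0 0 = (f (ZMod p) 1 0).1 0 0 := by rw [h2]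
    rw [f_apply, f_apply, if_pos rfl, if_neg (by decide)] at h3
    simp [fv] at h3
  have hcase : (κ' 0 = 0 ∧ κ' 1 = 1) ∨ (κ' 0 = 1 ∧ κ' 1 = 0) := by
    generalize κ' 0 = a at hne ⊢
    generalize κ' 1 = b at hne ⊢
    revert a b; decide
  rcases hcase with ⟨h0, h1⟩ | ⟨h0, h1⟩
  · left
    refine ext_f s 1 hs (fun x y => rfl) fun k j => ?_
    rw [hs2]
    show f (ZMod p) (κ' k) j = f (ZMod p) k j
    have : κ' k = k := by
      fin_cases k
      · exact h0
      · exact h1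
    rw [this]
  · right
    refine ext_f s (sw (ZMod p)) hs sw_add fun k j => ?_
    rw [hs2, sw_f]
    have : κ' k = Equiv.swap 0 1 k := by
      fin_cases k
      · exact h0
      · exact h1
    rw [this]

end

end Pool.Agent.N415.CG
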